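import Mathlib
import Pool.Agent.Q82.Der

set_option autoImplicit false

/-!
# Recognition of strictly plus-one generated arrangements by determinants

For every field, every dimension and every central arrangement, with no assumption on the
projective dimension of the module of logarithmic derivations, the two conditions (i) and (ii)
of the Saito-type criterion for strictly plus-one generated arrangements are equivalent.
-/

namespace Pool.Agent.Results.MP_eea557_ag.SaitoRecognition

open MvPolynomial

/-- The linear form `∑ j, a j * x_j`. -/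
noncomputable def linearForm {K : Type} [Field K] {l : ℕ} (a : Fin l → K) :
    MvPolynomial (Fin l) K :=
  ∑ j, MvPolynomial.C (a j) * MvPolynomial.X j

/-- The hyperplane `ker (∑ j, a j * x_j)` in `K^l`. -/
def hyperplane {K : Type} [Field K] {l : ℕ} (a : Fin l → K) : Submodule K (Fin l → K) :=
  LinearMap.ker ((LinearMap.lsum K (fun _ : Fin l => K) K) (fun j => a j • LinearMap.id))

/-- `A` is the family of coefficient vectors of a central arrangement of `n` distinct
hyperplanes in `K^l`. -/
def IsArrangement {K : Type} [Field K] {l n : ℕ} (A : Fin n → Fin l → K) : Prop :=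
  (∀ i, A i ≠ 0) ∧ Function.Injective fun i => hyperplane (A i)

/-- The defining polynomial `Q`, the product of the defining linear forms. -/
noncomputable def definingPoly {K : Type} [Field K] {l n : ℕ} (A : Fin n → Fin l → K) :
    MvPolynomial (Fin l) K :=
  ∏ i, linearForm (A i)

/-- The derivations of the polynomial ring `S = K[x_1, ..., x_l]`. -/
abbrev Der (K : Type) [Field K] (l : ℕ) : Type :=
  Derivation K (MvPolynomial (Fin l) K) (MvPolynomial (Fin l) K)

/-- The module `D(A)` of logarithmic derivations: all `K`-linear derivations `θ` of the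
polynomial ring `S` with `θ(α_i) ∈ α_i S` for each defining form `α_i`. -/
noncomputable def logDer {K : Type} [Field K] {l n : ℕ} (A : Fin n → Fin l → K) :
    Submodule (MvPolynomial (Fin l) K) (Der K l) where
  carrier := {θ | ∀ i, linearForm (A i) ∣ θ (linearForm (A i))}
  add_mem' := fun {θ η} hθ hη i => by
    rw [Derivation.add_apply]
    exact dvd_add (hθ i) (hη i)
  zero_mem' := fun i => by rw [Derivation.zero_apply]; exact dvd_zero _
  smul_mem' := fun r θ hθ i => by
    rw [Derivation.smul_apply, smul_eq_mul]
    exact dvd_mul_of_dvd_right (hθ i) r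

/-- The derivation `θ` is homogeneous of degree `p`: all `θ(x_j)` lie in `S_p`. -/
def IsHomDer {K : Type} [Field K] {l : ℕ} (θ : Der K l) (p : ℕ) : Prop :=
  ∀ j, (θ (X j)).IsHomogeneous p

/-- `S_{>0}`: the homogeneous polynomials of positive degree (zero belongs to every
graded piece). -/
def IsPos {K : Type} [Field K] {l : ℕ} (h : MvPolynomial (Fin l) K) : Prop :=
  ∃ k, 0 < k ∧ h.IsHomogeneous k

/-- A nonzero linear form. -/
def IsNonzeroLinear {K : Type} [Field K] {l : ℕ} (h : MvPolynomial (Fin l) K) : Prop :=
  h.IsHomogeneous 1 ∧ h ≠ 0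

/-- The polynomials `g_1, ..., g_{l+1}` defined by `(-1)^i det M_i = g_i Q`, where `M` is the
`(l+1) × l` matrix with entries `θ_i(x_j)` and `M_i` is `M` without row `i`
(the rows are indexed here from `0` to `l`, which explains the exponent `i + 1`). -/
def IsCofactors {K : Type} [Field K] {l n : ℕ} (A : Fin n → Fin l → K)
    (θ : Fin (l + 1) → Der K l) (g : Fin (l + 1) → MvPolynomial (Fin l) K) : Prop :=
  ∀ i : Fin (l + 1), (-1) ^ ((i : ℕ) + 1) *
    (Matrix.of fun (r j : Fin l) => θ (i.succAbove r) (X j)).det = g i * definingPoly A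

/-- `f_1 θ_1 + ... + f_{l+1} θ_{l+1} = 0` is a relation of minimal degree: the coefficients have
no nonconstant common divisor (every common divisor is a unit). -/
def IsMinDegRelation {K : Type} [Field K] {l : ℕ} (θ : Fin (l + 1) → Der K l)
    (f : Fin (l + 1) → MvPolynomial (Fin l) K) : Prop :=
  ∑ i, f i • θ i = 0 ∧ ∀ p, (∀ i, p ∣ f i) → IsUnit p

/-- `A` is strictly plus-one generated: for some degrees `d_1, ..., d_l`, `d`, there are
homogeneous `η_i` of degree `d_i` and `φ` of degree `d` generating `D(A)`, polynomials `f_i` that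
are zero or homogeneous of positive degree `d + 1 - d_i`, and a nonzero linear form `a`, such
that `∑ f_i η_i + a φ = 0` and every relation between the `η_i` and `φ` is a multiple of this one.
In other words, `0 → S[-d-1] → ⨁ S[-d_i] ⊕ S[-d] → D(A) → 0` is a minimal graded free resolution
and the coefficient of the generator of degree `d` is a nonzero linear form. -/
def IsSPOG {K : Type} [Field K] {l n : ℕ} (A : Fin n → Fin l → K) : Prop :=
  ∃ (d : Fin l → ℕ) (m : ℕ) (η : Fin l → Der K l) (φ : Der K l)
    (f : Fin l → MvPolynomial (Fin l) K) (a : MvPolynomial (Fin l) K),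
    (∀ i, IsHomDer (η i) (d i)) ∧ IsHomDer φ m ∧
    Submodule.span (MvPolynomial (Fin l) K) (Set.range η ∪ {φ}) = logDer A ∧
    (∀ i, f i = 0 ∨ ∃ k, 0 < k ∧ d i + k = m + 1 ∧ (f i).IsHomogeneous k) ∧
    IsNonzeroLinear a ∧
    ∑ i, f i • η i + a • φ = 0 ∧
    ∀ (u : Fin l → MvPolynomial (Fin l) K) (v : MvPolynomial (Fin l) K),
      ∑ i, u i • η i + v • φ = 0 → ∃ c : MvPolynomial (Fin l) K, (∀ i, u i = c * f i) ∧ v = c * a

/-- Condition (i): `A` is SPOG, the `θ_i` form a minimal generating set of `D(A)`, the relation
`∑ g_i θ_i = 0` is the unique minimal-degree relation between them (up to a nonzero constant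
factor), and the coefficient `g_{l+1}` of `θ_{l+1}` in it is a nonzero linear form. -/
def ConditionI {K : Type} [Field K] {l n : ℕ} (A : Fin n → Fin l → K)
    (θ : Fin (l + 1) → Der K l) (g : Fin (l + 1) → MvPolynomial (Fin l) K) : Prop :=
  IsSPOG A ∧
  (Submodule.span (MvPolynomial (Fin l) K) (Set.range θ) = logDer A ∧
    ∀ i, θ i ∉ Submodule.span (MvPolynomial (Fin l) K) (θ '' {j | j ≠ i})) ∧
  (IsMinDegRelation θ g ∧ ∀ f, IsMinDegRelation θ f → ∃ c : K, c ≠ 0 ∧ f = c • g) ∧
  IsNonzeroLinear (g (Fin.last l))

/-- Condition (ii): `g_{l+1}` is a nonzero linear form, `g_1, ..., g_l` are in `S_{>0}`, and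
`g_1, ..., g_l` have no non-trivial common divisor modulo `g_{l+1}`. -/
def ConditionII {K : Type} [Field K] {l : ℕ}
    (g : Fin (l + 1) → MvPolynomial (Fin l) K) : Prop :=
  IsNonzeroLinear (g (Fin.last l)) ∧ (∀ i : Fin l, IsPos (g i.castSucc)) ∧
    ¬ ∃ h, IsPos h ∧ ∀ i : Fin l, g i.castSucc ∈ Ideal.span {h, g (Fin.last l)}

section

open Pool.Agent.Q82

variable {K : Type} [Field K] {l n : ℕ} {A : Fin n → Fin l → K}

lemma good (hA : IsArrangement A) : Good A := hA

lemma logDer_eq : logDer A = logD A := rfl

lemma isCof {θ : Fin (l + 1) → Der K l} {g : Fin (l + 1) → MvPolynomial (Fin l) K}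
    (h : IsCofactors A θ g) : IsCof A (fun i => derVec (θ i)) g := h

lemma minRel_iff {θ : Fin (l + 1) → Der K l} {f : Fin (l + 1) → MvPolynomial (Fin l) K} :
    IsMinDegRelation θ f ↔ MinRel (fun i => derVec (θ i)) f := by
  unfold IsMinDegRelation MinRel
  rw [rel_iff]

lemma image_derVec {ι : Type*} (θ : ι → Der K l) (s : Set ι) :
    derVec '' (θ '' s) = (fun i => derVec (θ i)) '' s := by
  rw [Set.image_image]

lemma range_derVec {ι : Type*} (θ : ι → Der K l) :
    derVec '' (Set.range θ) = Set.range (fun i => derVec (θ i)) := by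
  rw [← Set.range_comp]; rfl

theorem main (hA : IsArrangement A) (θ : Fin (l + 1) → Der K l) (hθ : ∀ i, θ i ∈ logDer A)
    (e : Fin (l + 1) → ℕ) (he : ∀ i, IsHomDer (θ i) (e i))
    (g : Fin (l + 1) → MvPolynomial (Fin l) K) (hg : IsCofactors A θ g) :
    ConditionI A θ g ↔ ConditionII g := by
  have hA' := good hA
  have hg' := isCof hg
  have hθ' : ∀ i, derVec (θ i) ∈ Dv A := fun i => mem_logD_iff.1 (hθ i)
  constructor
  · rintro ⟨_, ⟨hgen, hmin⟩, ⟨_, huniq⟩, hα, h0⟩
    have hgen' : Submodule.span (MvPolynomial (Fin l) K)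
        (Set.range fun i => derVec (θ i)) = Dv A := by
      rw [← range_derVec]
      exact (span_eq_iff A _).1 hgen
    have hmin' : ∀ i, derVec (θ i) ∉ Submodule.span (MvPolynomial (Fin l) K)
        ((fun i => derVec (θ i)) '' {j | j ≠ i}) := by
      intro i h
      apply hmin i
      rw [mem_span_iff, image_derVec]
      exact h
    refine ⟨⟨hα, h0⟩, fun i => ?_, ?_⟩
    · -- positivity
      have hhom := cof_hom hg' (e := e) (fun i j => he i j) i.castSucc
      rcases hom_of_mul_hom (QQ_hom A) (QQ_ne_zero hA') hhom with h | ⟨k, _, hk⟩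
      · exact ⟨1, one_pos, by rw [h]; exact isHomogeneous_zero _ _ _⟩
      · rcases Nat.eq_zero_or_pos k with hk0 | hk0
        · subst hk0
          by_cases hz : g i.castSucc = 0
          · exact ⟨1, one_pos, by rw [hz]; exact isHomogeneous_zero _ _ _⟩
          exfalso
          rw [← totalDegree_zero_iff_isHomogeneous, totalDegree_eq_zero_iff_eq_C] at hk
          have hc : coeff 0 (g i.castSucc) ≠ 0 := by
            intro h; rw [h, C_0] at hk; exact hz hk
          -- then `θ i` is a combination of the others
          apply hmin' i.castSucc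
          have hrel := cof_relation hA' hg'
          rw [Fin.sum_univ_succAbove _ i.castSucc] at hrel
          have h1 : derVec (θ i.castSucc) = ∑ r, (C (-(coeff 0 (g i.castSucc))⁻¹) *
              g (i.castSucc.succAbove r)) • derVec (θ (i.castSucc.succAbove r)) := by
            have h2 : (C (-(coeff 0 (g i.castSucc))⁻¹) : MvPolynomial (Fin l) K) •
                (g i.castSucc • derVec (θ i.castSucc) + ∑ r, g (i.castSucc.succAbove r) •
                derVec (θ (i.castSucc.succAbove r))) = 0 := by rw [hrel, smul_zero]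
            rw [smul_add, Finset.smul_sum, smul_smul] at h2
            have h3 : (C (-(coeff 0 (g i.castSucc))⁻¹) * g i.castSucc :
                MvPolynomial (Fin l) K) = -1 := by
              conv_lhs => rw [hk]
              rw [coeff_C, if_pos rfl, ← C_mul, neg_mul, inv_mul_cancel₀ hc]
              simp
            rw [h3, neg_one_smul] at h2
            exact (neg_add_eq_zero.1 h2).trans (Finset.sum_congr rfl fun r _ => by rw [mul_smul])
          show derVec (θ i.castSucc) ∈ _
          rw [h1]
          refine Submodule.sum_mem _ fun r _ => Submodule.smul_mem _ _ (Submodule.subset_span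
            ⟨_, Fin.succAbove_ne _ r, rfl⟩)
        · exact ⟨k, hk0, hk⟩
    · exact noCommon hA' hθ' hg' hα h0 hgen' (hmin' _)
        (fun f hf => huniq f (minRel_iff.2 hf))
  · rintro ⟨⟨hα, h0⟩, hpos, hN⟩
    have hgen := generates hA' hθ' hg' hα h0 hpos hN
    have hgen2 : Submodule.span (MvPolynomial (Fin l) K) (Set.range θ) = logDer A := by
      rw [logDer_eq, span_eq_iff, range_derVec]
      exact hgen
    refine ⟨?_, ⟨hgen2, fun i h => ?_⟩, ⟨minRel_iff.2 (minRel hA' hg' hα h0 hN),
      fun f hf => minRel_unique hA' hg' hα h0 hN (minRel_iff.1 hf)⟩, hα, h0⟩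
    · refine ⟨fun i => e i.castSucc, e (Fin.last l), fun i => θ i.castSucc, θ (Fin.last l),
        fun i => g i.castSucc, g (Fin.last l), fun i => he _, he _, ?_, fun i => ?_, ⟨hα, h0⟩,
        ?_, ?_⟩
      · rw [← hgen2]
        congr 1
        ext x
        constructor
        · rintro (⟨i, rfl⟩ | rfl)
          · exact ⟨_, rfl⟩
          · exact ⟨_, rfl⟩
        · rintro ⟨i, rfl⟩
          rcases Fin.eq_castSucc_or_eq_last i with ⟨j, rfl⟩ | rfl
          · exact Or.inl ⟨j, rfl⟩
          · exact Or.inr rfl
      · by_cases hz : g i.castSucc = 0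
        · exact Or.inl hz
        · obtain ⟨k, hk, hk2⟩ := hpos i
          exact Or.inr ⟨k, hk, degrees hA' hg' (e := e) (fun i j => he i j) hα h0 hk2 hz, hk2⟩
      · have h1 : ∑ i, g i • θ i = 0 := (rel_iff _ _).2 (cof_relation hA' hg')
        rwa [Fin.sum_univ_castSucc] at h1
      · intro u v huv
        have h1 : ∑ i, (Fin.snoc (α := fun _ => MvPolynomial (Fin l) K) u v :
            Fin (l + 1) → MvPolynomial (Fin l) K) i • θ i = 0 := by
          rw [Fin.sum_univ_castSucc]
          simpa using huv
        obtain ⟨c, hc⟩ := relations hA' hg' hα h0 hN ((rel_iff _ _).1 h1)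
        refine ⟨c, fun i => ?_, ?_⟩
        · have := congrFun hc i.castSucc
          simpa using this
        · have := congrFun hc (Fin.last l)
          simpa using this
    · rw [mem_span_iff, image_derVec] at h
      exact not_mem_span hA' hg' hα h0 hpos hN i h

end

/-- **Saito-type recognition of SPOG arrangements.** Let `K` be any field, `l` any dimension, `A`
any central arrangement in `K^l` and `θ_1, ..., θ_{l+1} ∈ D(A)` homogeneous. Then the cofactors
`g_i` with `(-1)^i det M_i = g_i Q` exist and are unique, and conditions (i) and (ii) are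
equivalent for them, without any assumption on the projective dimension of `D(A)`. -/
theorem result : ∀ (K : Type) [Field K] (l n : ℕ) (A : Fin n → Fin l → K), IsArrangement A →
    ∀ θ : Fin (l + 1) → Der K l, (∀ i, θ i ∈ logDer A) → (∀ i, ∃ p, IsHomDer (θ i) p) →
      ∃! g : Fin (l + 1) → MvPolynomial (Fin l) K,
        IsCofactors A θ g ∧ (ConditionI A θ g ↔ ConditionII g) := by
  intro K _ l n A hA θ hθ hhom
  choose e he using hhom
  obtain ⟨g, hg, huniq⟩ := Pool.Agent.Q82.exists_cof (good hA)
    (θ := fun i => Pool.Agent.Q82.derVec (θ i)) (fun i => Pool.Agent.Q82.mem_logD_iff.1 (hθ i))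
  exact ⟨g, ⟨hg, main hA θ hθ e he g hg⟩, fun g' hg' => huniq g' hg'.1⟩

end Pool.Agent.Results.MP_eea557_ag.SaitoRecognition
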